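import Pool.Agent.COV.StmtsA

/-!
# COV, row GCP: coprime `P`, `Q`
-/

set_option autoImplicit false

namespace Pool.Agent.COV.H60

open Polynomial

/-- the greatest common divisor -/
theorem gcd_split {k : Type} [Field k] (a b : k[X]) (h : a ≠ 0 ∨ b ≠ 0) :
    ∃ g a' b' : k[X], g ≠ 0 ∧ a = g * a' ∧ b = g * b' ∧ IsCoprime a' b' := by
  classical
  have hg : EuclideanDomain.gcd a b ≠ 0 := by
    intro h0
    rw [EuclideanDomain.gcd_eq_zero_iff] at h0
    rcases h with h | h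
    · exact h h0.1
    · exact h h0.2
  obtain ⟨a', ha'⟩ := EuclideanDomain.gcd_dvd_left a b
  obtain ⟨b', hb'⟩ := EuclideanDomain.gcd_dvd_right a b
  have hbez := EuclideanDomain.gcd_eq_gcd_ab a b
  generalize EuclideanDomain.gcd a b = g at *
  refine ⟨g, a', b', hg, ha', hb', ?_⟩
  refine ⟨EuclideanDomain.gcdA a b, EuclideanDomain.gcdB a b, ?_⟩
  apply mul_left_cancel₀ hg
  generalize EuclideanDomain.gcdA a b = u at *
  generalize EuclideanDomain.gcdB a b = v at *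
  rw [mul_one]
  conv_rhs => rw [hbez, ha', hb']
  ring

/-- `a² ∣ F b²`, `F` squarefree: `a ∣ b` -/
theorem sq_dvd {k : Type} [Field k] {F a b : k[X]} (hF : Squarefree F) (ha : a ≠ 0)
    (h : a ^ 2 ∣ F * b ^ 2) : a ∣ b := by
  obtain ⟨g, a', b', hg, ha', hb', hc⟩ := gcd_split a b (Or.inl ha)
  subst ha'
  subst hb'
  have h1 : a' ^ 2 ∣ F * b' ^ 2 := by
    have e1 : (g * a') ^ 2 = g ^ 2 * a' ^ 2 := by ring
    have e2 : F * (g * b') ^ 2 = g ^ 2 * (F * b' ^ 2) := by ring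
    rw [e1, e2] at h
    exact (mul_dvd_mul_iff_left (pow_ne_zero 2 hg)).1 h
  have h2 : a' ^ 2 ∣ F := (hc.pow (m := 2) (n := 2)).dvd_of_dvd_mul_right h1
  have h3 : IsUnit a' := by
    apply hF a'
    rw [← pow_two]
    exact h2
  exact mul_dvd_mul_left g h3.dvd

theorem gcp : GcpStmt := by
  intro k _ _ n F hF hcov
  obtain ⟨j, P, Q, V, hj0, hj1, hP, hQ, hw, he⟩ := hcov
  have hP0 : P ≠ 0 := by
    rintro rfl
    apply hw
    simp [wr]
  have hQ0 : Q ≠ 0 := by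
    rintro rfl
    apply hw
    simp [wr]
  obtain ⟨D, P₁, Q₁, hD, hP₁, hQ₁, hc⟩ := gcd_split P Q (Or.inl hP0)
  subst hP₁
  subst hQ₁
  have hw1 : wr (D * P₁) (D * Q₁) = D ^ 2 * wr P₁ Q₁ := by
    unfold wr
    rw [derivative_mul, derivative_mul]
    ring
  have hdv : D ^ 2 ∣ V := by
    apply sq_dvd hF (pow_ne_zero 2 hD)
    rw [he]
    refine ⟨P₁ * Q₁ * (P₁ - Q₁) * (P₁ - C j * Q₁), ?_⟩
    ring
  obtain ⟨V₁, rfl⟩ := hdv
  have he1 : F * V₁ ^ 2 = P₁ * Q₁ * (P₁ - Q₁) * (P₁ - C j * Q₁) := by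
    apply mul_left_cancel₀ (pow_ne_zero 4 hD)
    linear_combination he
  have hw2 : wr P₁ Q₁ ≠ 0 := by
    intro h
    apply hw
    rw [hw1, h, mul_zero]
  refine ⟨j, P₁, Q₁, V₁, hj0, hj1, ?_, ?_, hc, hw2, ?_, he1⟩
  · exact le_trans (natDegree_le_of_dvd (Dvd.intro_left D rfl) hP0) hP
  · exact le_trans (natDegree_le_of_dvd (Dvd.intro_left D rfl) hQ0) hQ
  · rintro rfl
    apply hw2
    rw [zero_pow two_ne_zero, mul_zero] at he1
    rcases mul_eq_zero.1 he1.symm with h | h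
    · rcases mul_eq_zero.1 h with h | h
      · rcases mul_eq_zero.1 h with h | h
        · simp [wr, h]
        · simp [wr, h]
      · rw [sub_eq_zero] at h
        simp [wr, h, mul_comm]
    · rw [sub_eq_zero] at h
      rw [h]
      unfold wr
      rw [derivative_mul, derivative_C]
      ring

end Pool.Agent.COV.H60
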